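import Pool.Agent.L0h58.HY.Fun

/-!
# Randomized programs against nondeterminism, for an explicit function

There are explicit Boolean functions `hardFunction N g` of `N` bits, which are computed by
nondeterministic programs that guess `g` bits and then read the input only once, from left to right,
with `2 ^ (27 g)` memory states; but randomized programs of time `k N` and with
`2 ^ (N / (2 ^ (A k ^ 3) h))` nodes distinguish the ones from the zeros of `hardFunction N g` only with
an advantage of at most `(N / g) 2 ^ (-g) + 2 ^ (-h)`, if `N ≤ 2 ^ g` and `g` and `h log N` are at most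
`N / 2 ^ (A k ^ 3)`. Here `k` may depend on `N`: the time may be a small multiple of
`N (log N) ^ (1 / 3)`, and then `2 ^ (A k ^ 3)` is at most `N ^ ε`. The program that chooses the `g`
bits at random, and tries `2 ^ j` choices simultaneously, has the advantage `2 ^ (j - g)` and
`2 ^ (27 g 2 ^ j)` states, so for fixed `k` and `h` about `g` the bound is optimal up to a factor
`O (g)`. If the probability of acceptance is at most `b` for all ones, then it is at most
`(1 + (N / g) 2 ^ (-g)) b + 2 ^ (-h)` for some zero.

The function asks whether the value of a quadratic form in polynomials, whose coefficients are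
linear forms in the blocks `x(i)` of the input, is zero at one of the `2 ^ g` points
`∑ u_j θ ^ j`, `j < g`, of the field `𝔽₂(θ)` with `4 ^ g` elements. The coefficients of the linear forms
are given by the other blocks of the input: the matrix of the linear forms is a block Hankel matrix,
and for a suitable choice of its entries every large set of its rows has almost full rank. So the
function is a disjunction of `2 ^ g` rare, pairwise almost independent events. The inputs are divided
into classes by the states of the program at the ends of `O (h)` segments of the computation, by the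
reading patterns of `O (h)` sampled variables (which determine a labelling of the segments), and by
the sets of the variables which are only read in segments of one of two kinds. The classes are
combinatorial rectangles, almost all inputs are in large ones, and a large rectangle contains at
least `(1 - N / (g 2 ^ g))` times the expected number of ones.
-/

set_option autoImplicit false

namespace Pool.Agent.Results.MP_b573ec_lc.NondeterminismAdvantage

/-! ### The function -/

section function

open Polynomial

/-- The bit `j` of the input `y`, as an element `0` or `1` of `𝔽₂[X]`. -/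
noncomputable def bit {N : ℕ} (y : Fin N → Bool) (j : ℕ) : (ZMod 2)[X] :=
  if h : j < N then (if y ⟨j, h⟩ = true then 1 else 0) else 0

/-- The polynomial of degree less than `2 g` which is given by the block `m` of `2 g` bits; the
blocks come after the first `n` bits. -/
noncomputable def block {N : ℕ} (y : Fin N → Bool) (n g m : ℕ) : (ZMod 2)[X] :=
  ∑ j ∈ Finset.range (2 * g), bit y (n + m * (2 * g) + j) * X ^ j

/-- `P(a) = ∑ yᵢ aⁱ`, `i < n`, where the `yᵢ` are the first `n` bits. -/
noncomputable def shiftValue {N : ℕ} (y : Fin N → Bool) (n : ℕ) (a : (ZMod 2)[X]) : (ZMod 2)[X] :=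
  ∑ i ∈ Finset.range n, bit y i * a ^ i

/-- `W_c(0) = 0`, `W_c(i + 1) = a W_c(i) + t_c(i) + s_c(i) P(a)`, where `t_c(i)` and `s_c(i)` are
the blocks `13 i + c` and `13 i + 6 + c`. -/
noncomputable def window {N : ℕ} (y : Fin N → Bool) (n g : ℕ) (a : (ZMod 2)[X]) (c : ℕ) :
    ℕ → (ZMod 2)[X]
  | 0 => 0
  | i + 1 => a * window y n g a c i + block y n g (13 * i + c) +
      block y n g (13 * i + (6 + c)) * shiftValue y n a

/-- `U_c = ∑ x(i) W_c(i + 1)`, `i < n`, where `x(i)` is the block `13 i + 12`. -/
noncomputable def windowSum {N : ℕ} (y : Fin N → Bool) (n g : ℕ) (a : (ZMod 2)[X]) (c : ℕ) :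
    (ZMod 2)[X] :=
  ∑ i ∈ Finset.range n, block y n g (13 * i + 12) * window y n g a c (i + 1)

/-- The polynomial over `𝔽₂` whose coefficients are the binary digits of `m`. -/
noncomputable def binaryPoly (m : ℕ) : (ZMod 2)[X] :=
  ∑ i ∈ Finset.range m, if m.testBit i = true then X ^ i else 0

/-- The first irreducible polynomial of degree `d`. -/
noncomputable def firstIrreducible (d : ℕ) : (ZMod 2)[X] :=
  binaryPoly (sInf {m | Irreducible (binaryPoly m) ∧ (binaryPoly m).natDegree = d})

open Classical in
/-- The explicit function of `N` bits: with `n = ⌊N / (26 g + 1)⌋`, is `U₀ U₃ + U₁ U₄ + U₂ U₅`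
divisible by the first irreducible polynomial of degree `2 g` for some polynomial `a` of degree less
than `g`? -/
noncomputable def hardFunction (N g : ℕ) (y : Fin N → Bool) : Bool :=
  decide (∃ a : (ZMod 2)[X], a.degree < g ∧ firstIrreducible (2 * g) ∣
    windowSum y (N / (26 * g + 1)) g a 0 * windowSum y (N / (26 * g + 1)) g a 3 +
    windowSum y (N / (26 * g + 1)) g a 1 * windowSum y (N / (26 * g + 1)) g a 4 +
    windowSum y (N / (26 * g + 1)) g a 2 * windowSum y (N / (26 * g + 1)) g a 5)

theorem bit_eq {N : ℕ} (y : Fin N → Bool) (j : ℕ) :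
    (Pool.Agent.L0h58.HX.bv (Pool.Agent.L0h58.HX.bit y j) : (ZMod 2)[X]) = bit y j := by
  unfold bit Pool.Agent.L0h58.HX.bit Pool.Agent.L0h58.HX.bv
  by_cases h : j < N
  · rw [dif_pos h, dif_pos h]
  · rw [dif_neg h, dif_neg h]
    rfl

theorem block_eq {N : ℕ} (y : Fin N → Bool) (n g i τ : ℕ) :
    Pool.Agent.L0h58.HY.ch (X : (ZMod 2)[X]) n (2 * g) (Pool.Agent.L0h58.HX.bit y) i τ =
      block y n g (13 * i + τ) := by
  unfold Pool.Agent.L0h58.HY.ch block
  exact Finset.sum_congr rfl fun j _ => by rw [bit_eq]

theorem window_eq {N : ℕ} (y : Fin N → Bool) (n g : ℕ) (a : (ZMod 2)[X]) (c i : ℕ) :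
    Pool.Agent.L0h58.HY.wn (X : (ZMod 2)[X]) a n (2 * g) (Pool.Agent.L0h58.HX.bit y) c i =
      window y n g a c i := by
  have hP : Pool.Agent.L0h58.HY.pa a n (Pool.Agent.L0h58.HX.bit y) = shiftValue y n a := by
    unfold Pool.Agent.L0h58.HY.pa shiftValue
    exact Finset.sum_congr rfl fun i _ => by rw [bit_eq]
  induction i with
  | zero => rfl
  | succ i ih =>
    unfold window Pool.Agent.L0h58.HY.wn
    rw [ih, hP, block_eq, block_eq]

theorem hard_eq (N g : ℕ) : Pool.Agent.L0h58.HY.fx N g = hardFunction N g := by
  classical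
  funext y
  have hU : ∀ (a : (ZMod 2)[X]) (c n : ℕ), Pool.Agent.L0h58.HY.ac (X : (ZMod 2)[X]) a n (2 * g)
      (Pool.Agent.L0h58.HX.bit y) c n = windowSum y n g a c := by
    intro a c n
    rw [Pool.Agent.L0h58.HY.ac_sum]
    unfold windowSum
    exact Finset.sum_congr rfl fun i _ => by rw [block_eq, window_eq]
  have h1 := Pool.Agent.L0h58.HY.exists_degree_lt (g := g) fun a => firstIrreducible (2 * g) ∣
    windowSum y (N / (26 * g + 1)) g a 0 * windowSum y (N / (26 * g + 1)) g a 3 +
    windowSum y (N / (26 * g + 1)) g a 1 * windowSum y (N / (26 * g + 1)) g a 4 +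
    windowSum y (N / (26 * g + 1)) g a 2 * windowSum y (N / (26 * g + 1)) g a 5
  unfold Pool.Agent.L0h58.HY.fx hardFunction Pool.Agent.L0h58.HY.vq
  simp only [hU]
  exact decide_eq_decide.2 h1

end function

/-- A deterministic branching program for inputs of `n` bits with the set `V` of nodes; cycles are
allowed. The node `v` reads the variable `var v`; if its value is `b`, the next node is `next v b`
(a sink is a node with `next v b = v`). The input is accepted in time `T` if the node after `T`
steps is in `acc`. -/
structure BranchingProgram (n : ℕ) (V : Type) where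
  start : V
  var : V → Fin n
  next : V → Bool → V
  acc : Set V

/-- The program accepts the input `x` in time `T`. -/
def BranchingProgram.Accepts {n : ℕ} {V : Type} (P : BranchingProgram n V) (T : ℕ)
    (x : Fin n → Bool) : Prop :=
  (fun v => P.next v (x (P.var v)))^[T] P.start ∈ P.acc

/-- A randomized program: the program `prog ω` with the set `V ω` of nodes is chosen with the probability
`weight ω`. -/
structure RandomizedProgram (n : ℕ) (Ω : Type) [Fintype Ω] where
  weight : Ω → ℝ
  nonneg : ∀ ω, 0 ≤ weight ω
  sum_eq_one : ∑ ω, weight ω = 1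
  V : Ω → Type
  prog : (ω : Ω) → BranchingProgram n (V ω)

open Classical in
/-- The probability that the input `x` is accepted in time `T`. -/
noncomputable def RandomizedProgram.prob {n : ℕ} {Ω : Type} [Fintype Ω]
    (R : RandomizedProgram n Ω) (T : ℕ) (x : Fin n → Bool) : ℝ :=
  ∑ ω, if (R.prog ω).Accepts T x then R.weight ω else 0

/-- All the programs have at most `L` nodes. -/
def RandomizedProgram.Size {n : ℕ} {Ω : Type} [Fintype Ω] (R : RandomizedProgram n Ω)
    (L : ℝ) : Prop :=
  ∀ ω, Finite (R.V ω) ∧ (Nat.card (R.V ω) : ℝ) ≤ L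

/-- A nondeterministic one-pass program with the set `V` of memory states: it guesses `g` bits, and
then it reads the input once, from left to right. -/
structure OnePassProgram (n g : ℕ) (V : Type) where
  start : (Fin g → Bool) → V
  next : Fin n → V → Bool → V
  acc : V → Prop

/-- The one-pass program computes `f`: the ones are the inputs accepted for some guess. -/
def OnePassProgram.Computes {n g : ℕ} {V : Type} (P : OnePassProgram n g V)
    (f : (Fin n → Bool) → Bool) : Prop :=
  ∀ x, f x = true ↔ ∃ ω : Fin g → Bool,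
    P.acc ((List.finRange n).foldl (fun v i => P.next i v (x i)) (P.start ω))

/-- **Randomized programs against nondeterminism in superlinear time and sublinear space.** -/
theorem result :
    -- one pass over the input, `g` guesses; or `g - j` guesses and more memory states
    (∀ n g j : ℕ, 1 ≤ g → j ≤ g →
      ∃ (V : Type) (_ : Finite V) (P : OnePassProgram n (g - j) V),
        Nat.card V ≤ 2 ^ (27 * g * 2 ^ j) ∧ P.Computes (hardFunction n g)) ∧
    ∃ A : ℕ, ∀ k n g h T : ℕ, 1 ≤ k → 1 ≤ g → 1 ≤ h → n ≤ 2 ^ g →
      (2 : ℝ) ^ (A * k ^ 3) * g ≤ n → (2 : ℝ) ^ (A * k ^ 3) * (h * Nat.log 2 n) ≤ n → T ≤ k * n →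
        ∀ (Ω : Type) [Fintype Ω] (R : RandomizedProgram n Ω),
          R.Size (2 ^ ((n : ℝ) / (2 ^ (A * k ^ 3) * h))) →
          ∀ a b : ℝ, a ≤ 1 → 0 ≤ b →
            -- acceptance of the ones
            ((∀ x, hardFunction n g x = true → a ≤ R.prob T x) →
              (∀ x, hardFunction n g x = false → R.prob T x ≤ b) →
              a ≤ b + n / g * (1 / 2) ^ g + (1 / 2) ^ h) ∧
            -- acceptance of the zeros
            ((∀ x, hardFunction n g x = false → a ≤ R.prob T x) →
              (∀ x, hardFunction n g x = true → R.prob T x ≤ b) →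
              a ≤ (1 + n / g * (1 / 2) ^ g) * b + (1 / 2) ^ h) := by
  classical
  obtain ⟨A, hA⟩ := Pool.Agent.L0h58.HY.family6
  refine ⟨fun n g j hg hj => ?_, A, fun k n g h T hk hg hh hng hn1 hn2 hT Ω hΩ R hR a b
    ha hb => ?_⟩
  · obtain ⟨V, hV, start, next, acc, hcard, hdec⟩ :=
      Pool.Agent.L0h58.HN.nonP_fewer (Pool.Agent.L0h58.HY.easy5 n g hg) hj
    rw [hard_eq] at hdec
    exact ⟨V, hV, ⟨start, next, acc⟩, by rw [pow_mul]; exact hcard, hdec⟩
  · obtain ⟨W, hW, -, -, hs2, hB⟩ := hA k n g h T hk hg hh hng hn1 hn2 hT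
    rw [hard_eq] at hB
    have hsz : ∀ ω, (Nat.card (R.V ω) : ℝ) ≤ (2 : ℝ) ^ ((n : ℝ) / (W * h)) :=
      fun ω => (hR ω).2.trans hs2
    have hfin : ∀ ω, Finite (R.V ω) := fun ω => (hR ω).1
    let P : ∀ ω, Pool.Agent.L0h58.HN.BP n (R.V ω) := fun ω =>
      ⟨(R.prog ω).start, (R.prog ω).var, (R.prog ω).next, fun _ => none⟩
    have hrun : ∀ ω x, ((P ω).step x)^[T] (P ω).start =
        (fun v => (R.prog ω).next v (x ((R.prog ω).var v)))^[T] (R.prog ω).start := by
      intro ω x
      congr 1
    have hacc : ∀ ω x, ((P ω).step x)^[T] (P ω).start ∈ (R.prog ω).acc ↔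
        (R.prog ω).Accepts T x := by
      intro ω x
      rw [hrun]
      exact Iff.rfl
    have hpr : ∀ x, (∑ ω, if ((P ω).step x)^[T] (P ω).start ∈ (R.prog ω).acc then R.weight ω
        else 0) = R.prob T x := by
      intro x
      unfold RandomizedProgram.prob
      refine Finset.sum_congr rfl fun ω _ => ?_
      by_cases hc : (R.prog ω).Accepts T x
      · rw [if_pos hc, if_pos ((hacc ω x).2 hc)]
      · rw [if_neg hc, if_neg fun hc' => hc ((hacc ω x).1 hc')]
    obtain ⟨U, hU⟩ : ∃ U : ∀ ω, Set (R.V ω), ∀ ω v, v ∈ U ω ↔ v ∉ (R.prog ω).acc :=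
      ⟨fun ω => ((R.prog ω).acc)ᶜ, fun ω v => Iff.rfl⟩
    have hprc : ∀ x, (∑ ω, if ((P ω).step x)^[T] (P ω).start ∈ U ω then R.weight ω
        else 0) = 1 - R.prob T x := by
      intro x
      rw [← hpr, ← R.sum_eq_one, ← Finset.sum_sub_distrib]
      refine Finset.sum_congr rfl fun ω _ => ?_
      by_cases hc : ((P ω).step x)^[T] (P ω).start ∈ (R.prog ω).acc
      · rw [if_pos hc, if_neg (fun h => (hU _ _).1 h hc), sub_self]
      · rw [if_neg hc, if_pos ((hU _ _).2 hc), sub_zero]
    refine ⟨fun h1 h0 => ?_, fun h0 h1 => ?_⟩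
    · have h2 := hB Ω R.weight R.V P U R.nonneg R.sum_eq_one hsz
        (1 - b) (1 - a) (by linarith) (fun x hx => by rw [hprc]; linarith [h1 x hx])
        (fun x hx => by rw [hprc]; linarith [h0 x hx])
      have h3 : (0 : ℝ) ≤ n / g * (1 / 2) ^ g := by positivity
      rcases le_or_gt 0 a with h4 | h4
      · have h5 := mul_nonneg h3 h4
        linarith
      · have h5 : (0 : ℝ) ≤ (1 / 2) ^ h := by positivity
        linarith
    · exact hB Ω R.weight R.V P (fun ω => (R.prog ω).acc) R.nonneg R.sum_eq_one hsz a b hb
        (fun x hx => by rw [hpr]; exact h1 x hx) (fun x hx => by rw [hpr]; exact h0 x hx)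

end Pool.Agent.Results.MP_b573ec_lc.NondeterminismAdvantage
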