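import Pool.Agent.L0h33.UD.Final

/-!
# `P = RP` without any uniform bound for the cost of the derandomization

There is an oracle `A` relative to which `P = RP = NP ∩ coNP ≠ NP`, although for every `c` some
language in zero-error probabilistic linear time is not decided by any deterministic algorithm
which asks `O(n ^ c)` questions of `O(n ^ c)` bits, whatever its computation time is. So the
statements

* `prRP = prP` (derandomization of promise problems),
* `RTIME(n) ⊆ DTIME(n ^ c)` for some `c` (uniform derandomization of languages),
* `P = RP`

each of which implies the next one, are not equivalent for relativizing reasons: relative to `A`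
the last one holds, and the first two fail. (For `P = NP` there is no such phenomenon, since
nondeterministic linear time has complete languages.)

The idea. The oracle contains a countable set of keys `e`. For a key and a length `n` there are two
regions of `2 ^ n` strings; one of them is empty and the other one has density at least `1/2`, and
which one it is, is certified by a single string of length about `n ^ (e + 1)`. A deterministic
algorithm which asks fewer and shorter questions finds only zeros. Numbers which are not keys may
have regions of any density, so that a machine with one-sided error for all these oracles can make
use only of finitely many keys, and it is simulated in polynomial time: the certificates for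
these keys are read, and for the rest of the oracle the set of the questions which are asked with
not too small probability is a short proof that the input is not accepted.

The definitions are in `Pool/Agent/H620R2/Gauge/Defs.lean` (oracle algorithms, `IsFP`, `IsP`),
`Pool/Agent/H620R2/Gauge2/Defs.lean` (`IsNP`), `Pool/Agent/H620R2/GaugeR/Defs.lean` (`IsRP`),
`Pool/Agent/TH678/ETH/Defs.lean` (`upTo`) and `Pool/Agent/L0h33/UD/Defs.lean` (`ask`, `InQ`,
`hitPr`, `ZLin`).
-/

set_option autoImplicit false

namespace Pool.Agent.Results.MP_b573ec_lc.NonuniformDerandomization

open Pool.Agent.NPC Pool.Agent.H620R2.Gauge Pool.Agent.L0h33.UD

/-- **Main theorem.** There is an oracle `A` such that, relative to `A`,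

* `RP = P`,
* `NP ∩ coNP = P`,
* `NP ≠ RP`,
* for every `c` some language in `P` is decided with zero error by a randomized algorithm which
  only chooses a random string `w` of length `n` and asks two questions `u ++ w` and `v ++ w`, but
  is not decided by any deterministic algorithm which asks `O(n ^ c)` questions of `O(n ^ c)` bits,
  even if its computation time is not bounded,
* the promise problem, given `u` and `x`, to distinguish the case that `u ++ w` is in `A` for at
  least half of the strings `w` with `|w| = |x|` from the case that it is in `A` for no such `w`,
  is not solved by any polynomial-time algorithm. -/
theorem result : ∃ A : Oracle,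
    (∀ L, IsRP A L ↔ IsP A L) ∧
    (∀ L, IsNP A L → IsNP A Lᶜ → IsP A L) ∧
    (∃ L, IsNP A L ∧ ¬ IsRP A L) ∧
    (∀ c : ℕ, ∃ L, ZLin A L ∧ IsP A L ∧ ¬ InQ c A L) ∧
    ¬ ∃ V : List Bool → List Bool, IsFP A V ∧ ∀ u x : List Bool,
      (1 / 2 ≤ hitPr A u x.length → V (pairBits u x) = [true]) ∧
      (hitPr A u x.length = 0 → V (pairBits u x) ≠ [true]) :=
  main

end Pool.Agent.Results.MP_b573ec_lc.NonuniformDerandomization
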