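import Pool.Agent.L0h58.HZ.All

/-!
# `P` versus `RP` in slightly superlinear time and sublinear space, for an explicit function

There is an explicit Boolean function `hardFunction N` of `N` bits which is computed, with one-sided
error as in `RL`, by a program that tosses at most `log N` coins and then reads the input only once,
from left to right, with at most `N ^ 15` memory states; but a randomized program for it with
one-sided error on the other side needs, for all `k` and `N ≥ K = 2 ^ (A k ^ 3)`, more than `k N` steps
or more than `2 ^ (N / K)` nodes, even if the inputs with `hardFunction N x = false` need be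
recognized only with probability `2 ^ (-(N / K))`. In particular no deterministic, no zero-error and
no co-`RP` program with these resources computes it. The complement is not even computed by
nondeterministic programs with at most `N / K` guesses, time `k N` and `2 ^ (N / K)` nodes. For fixed
`k` the time is linear and the space is linear, for `k = c (log N) ^ (1 / 3)` the time is superlinear
and the space is `N ^ (1 - ε)`: within these bounds, `RP` is contained neither in `P` nor in co-`RP`
nor in co-`NP`.

The function tests whether a quadratic identity between polynomials over `𝔽₂` fails. The six linear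
forms in the bits `x(i)` have coefficients which are polynomials `W_c(i)`. If `P = X ^ K`,
`s_c(i) = t_c(i - K)` then `W_c(i)` is the window `∑ t_c(i - a) X ^ a`, `a < K`, of the sequence `t_c`, so
that the matrix of the linear forms is a Hankel matrix, and for a suitable choice of these bits
every large set of its rows has almost full rank.
-/

set_option autoImplicit false

namespace Pool.Agent.Results.MP_b573ec_lc.RandomnessLinearTime

/-! ### The function -/

section function

open Polynomial

/-- The bit `j` of the input `y`, as an element `0` or `1` of `𝔽₂[X]`. -/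
noncomputable def bit {N : ℕ} (y : Fin N → Bool) (j : ℕ) : (ZMod 2)[X] :=
  if h : j < N then (if y ⟨j, h⟩ = true then 1 else 0) else 0

/-- The polynomial `P = ∑ yᵢ Xⁱ`, `i < n`, which is given by the first `n` bits. -/
noncomputable def shiftPoly {N : ℕ} (y : Fin N → Bool) (n : ℕ) : (ZMod 2)[X] :=
  ∑ i ∈ Finset.range n, bit y i * X ^ i

/-- The polynomials `W_c(0) = 0`, `W_c(i + 1) = X W_c(i) + t_c(i) + s_c(i) P`, where `t_c(i)` and
`s_c(i)` are the bits `n + 14 i + c` and `n + 14 i + 6 + c`. -/
noncomputable def window {N : ℕ} (y : Fin N → Bool) (n c : ℕ) : ℕ → (ZMod 2)[X]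
  | 0 => 0
  | i + 1 => X * window y n c i + bit y (n + 14 * i + c) +
      bit y (n + 14 * i + 6 + c) * shiftPoly y n

/-- The polynomial `U_c = ∑ x(i) W_c(i + 1)`, `i < n`, where `x(i)` is the bit `n + 14 i + 12`. -/
noncomputable def windowSum {N : ℕ} (y : Fin N → Bool) (n c : ℕ) : (ZMod 2)[X] :=
  ∑ i ∈ Finset.range n, bit y (n + 14 * i + 12) * window y n c (i + 1)

/-- The polynomial `∑ w(i) Xⁱ`, `i < n`, where `w(i)` is the bit `n + 14 i + 13`. -/
noncomputable def target {N : ℕ} (y : Fin N → Bool) (n : ℕ) : (ZMod 2)[X] :=
  ∑ i ∈ Finset.range n, bit y (n + 14 * i + 13) * X ^ i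

open Classical in
/-- The explicit function: does the identity `U₀ U₃ + U₁ U₄ + U₂ U₅ = ∑ w(i) Xⁱ` fail? -/
noncomputable def hardFunction (N : ℕ) (y : Fin N → Bool) : Bool :=
  decide (windowSum y (N / 16) 0 * windowSum y (N / 16) 3 +
    windowSum y (N / 16) 1 * windowSum y (N / 16) 4 +
    windowSum y (N / 16) 2 * windowSum y (N / 16) 5 ≠ target y (N / 16))

theorem bit_eq {N : ℕ} (y : Fin N → Bool) (j : ℕ) :
    (Pool.Agent.L0h58.HX.bv (Pool.Agent.L0h58.HX.bit y j) : (ZMod 2)[X]) = bit y j := by
  unfold bit Pool.Agent.L0h58.HX.bit Pool.Agent.L0h58.HX.bv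
  by_cases h : j < N
  · rw [dif_pos h, dif_pos h]
  · rw [dif_neg h, dif_neg h]
    rfl

theorem window_eq {N : ℕ} (y : Fin N → Bool) (n c i : ℕ) :
    Pool.Agent.L0h58.HX.win (X : (ZMod 2)[X]) n (Pool.Agent.L0h58.HX.bit y) c i =
      window y n c i := by
  have hP : Pool.Agent.L0h58.HX.pe (X : (ZMod 2)[X]) n (Pool.Agent.L0h58.HX.bit y) =
      shiftPoly y n := by
    unfold Pool.Agent.L0h58.HX.pe shiftPoly
    exact Finset.sum_congr rfl fun i _ => by rw [bit_eq]
  induction i with
  | zero => rfl
  | succ i ih =>
    unfold window Pool.Agent.L0h58.HX.win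
    rw [ih, hP, bit_eq, bit_eq]

theorem hard_eq (N : ℕ) : Pool.Agent.L0h58.HX.hard N = hardFunction N := by
  classical
  funext y
  have hU : ∀ c, Pool.Agent.L0h58.HX.acc (X : (ZMod 2)[X]) (N / 16)
      (Pool.Agent.L0h58.HX.bit y) c (N / 16) = windowSum y (N / 16) c := by
    intro c
    rw [Pool.Agent.L0h58.HX.acc_sum]
    unfold windowSum
    exact Finset.sum_congr rfl fun i _ => by rw [bit_eq, window_eq]
  have hT : Pool.Agent.L0h58.HX.tgt (X : (ZMod 2)[X]) (N / 16) (Pool.Agent.L0h58.HX.bit y) =
      target y (N / 16) := by
    unfold Pool.Agent.L0h58.HX.tgt target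
    exact Finset.sum_congr rfl fun i _ => by rw [bit_eq]
  unfold Pool.Agent.L0h58.HX.hard hardFunction Pool.Agent.L0h58.HX.vl
  rw [hU, hU, hU, hU, hU, hU, hT]
  apply decide_eq_decide.2
  exact sub_ne_zero

end function

/-- A deterministic branching program for inputs of `n` bits with the set `V` of nodes; cycles are
allowed. A node `v` with `out v = none` reads the variable `var v`, a node `v` with `out v = some b`
is a sink with the answer `b`. -/
structure BranchingProgram (n : ℕ) (V : Type) where
  start : V
  var : V → Fin n
  next : V → Bool → V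
  out : V → Option Bool

/-- One step of the computation. -/
def BranchingProgram.step {n : ℕ} {V : Type} (P : BranchingProgram n V) (x : Fin n → Bool)
    (v : V) : V :=
  if (P.out v).isSome then v else P.next v (x (P.var v))

/-- The answer for the input `x` after `t` steps; it is `none` if no sink has been reached. -/
def BranchingProgram.answer {n : ℕ} {V : Type} (P : BranchingProgram n V) (x : Fin n → Bool)
    (t : ℕ) : Option Bool :=
  P.out ((P.step x)^[t] P.start)

/-- A randomized branching program is a family `P` of branching programs with the same set of nodes,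
from which one is chosen at random, with the uniform distribution on the finite set `Ω`. This is
the probability that the answer for the input `x` is `a` after at most `t` steps. -/
noncomputable def prob {n : ℕ} {V Ω : Type} (P : Ω → BranchingProgram n V) (x : Fin n → Bool)
    (t : ℕ) (a : Bool) : ℝ :=
  (Nat.card {ω : Ω // (P ω).answer x t = some a} : ℝ) / (Nat.card Ω : ℝ)

/-- A nondeterministic branching program for inputs of `n` bits with the set `V` of nodes; cycles are
allowed. A node `v` with `out v = none` reads the variable `var v`; if its value is `b`, the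
possible next nodes are `next v b false` and `next v b true`. A node `v` with `out v = some b` is a
sink with the answer `b`. -/
structure NondetProgram (n : ℕ) (V : Type) where
  start : V
  var : V → Fin n
  next : V → Bool → Bool → V
  out : V → Option Bool

/-- One step of the computation with the guessed bit `c`. -/
def NondetProgram.step {n : ℕ} {V : Type} (P : NondetProgram n V) (x : Fin n → Bool) (v : V)
    (c : Bool) : V :=
  if (P.out v).isSome then v else P.next v (x (P.var v)) c

/-- The node after `t` steps of the computation with the guessed bits `γ`. -/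
def NondetProgram.run {n : ℕ} {V : Type} (P : NondetProgram n V) (x : Fin n → Bool)
    (γ : ℕ → Bool) : ℕ → V
  | 0 => P.start
  | t + 1 => P.step x (P.run x γ t) (γ t)

/-- The step at the time `t` is nondeterministic: there is a genuine choice between two nodes. -/
def NondetProgram.Chooses {n : ℕ} {V : Type} (P : NondetProgram n V) (x : Fin n → Bool)
    (γ : ℕ → Bool) (t : ℕ) : Prop :=
  P.step x (P.run x γ t) false ≠ P.step x (P.run x γ t) true

/-- The program computes `f` in time `T` with `g` guesses: `f x = true` if and only if the input `x` has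
an accepting computation of length at most `T` with at most `g` nondeterministic steps. -/
def NondetProgram.Computes {n : ℕ} {V : Type} (P : NondetProgram n V) (T g : ℕ)
    (f : (Fin n → Bool) → Bool) : Prop :=
  ∀ x, f x = true ↔ ∃ γ : ℕ → Bool, P.out (P.run x γ T) = some true ∧
    {t : ℕ | t < T ∧ P.Chooses x γ t}.ncard ≤ g

/-- A one-pass program for inputs of `n` bits with the set `V` of memory states: it first obtains
`ρ` bits (random bits or guesses), and then it reads the input once, from left to right. -/
structure OnePassProgram (n ρ : ℕ) (V : Type) where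
  start : (Fin ρ → Bool) → V
  next : Fin n → V → Bool → V
  acc : V → Prop

/-- The program accepts the input `x` if the bits are `ω`. -/
def OnePassProgram.Accepts {n ρ : ℕ} {V : Type} (P : OnePassProgram n ρ V) (ω : Fin ρ → Bool)
    (x : Fin n → Bool) : Prop :=
  P.acc ((List.finRange n).foldl (fun v i => P.next i v (x i)) (P.start ω))

/-- The program decides `f` with one-sided error: inputs with `f x = true` are accepted with
probability at least `1 / 2`, inputs with `f x = false` are never accepted. -/
def OnePassProgram.DecidesR {n ρ : ℕ} {V : Type} (P : OnePassProgram n ρ V)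
    (f : (Fin n → Bool) → Bool) : Prop :=
  ∀ x, (f x = true →
      (1 / 2 : ℝ) ≤ (Nat.card {ω : Fin ρ → Bool // P.Accepts ω x} : ℝ) / (2 : ℝ) ^ ρ) ∧
    (f x = false → ∀ ω, ¬ P.Accepts ω x)

/-- **`RP` is contained neither in co-`RP` nor in co-`NP` in time `k n` and space `n / 2 ^ (A k ^ 3)`.** -/
theorem result :
    (∀ n, 1 ≤ n → ∃ (ρ : ℕ) (V : Type) (_ : Finite V) (P : OnePassProgram n ρ V),
      2 ^ ρ ≤ n ∧ Nat.card V ≤ n ^ 15 ∧ P.DecidesR (hardFunction n)) ∧
    ∃ A : ℕ, ∀ k n : ℕ, 1 ≤ k → 2 ^ (A * k ^ 3) ≤ n →
      -- randomized programs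
      (∀ (V Ω : Type) (_ : Finite V) (_ : Finite Ω) (_ : Nonempty Ω)
        (P : Ω → BranchingProgram n V),
        (∀ x, hardFunction n x = true → ∀ ω t, (P ω).answer x t ≠ some false) →
        (∀ x, hardFunction n x = false →
          (2 : ℝ) ^ (-((n : ℝ) / 2 ^ (A * k ^ 3))) ≤ prob P x (k * n) false) →
          (2 : ℝ) ^ ((n : ℝ) / 2 ^ (A * k ^ 3)) < Nat.card V) ∧
      -- nondeterministic programs for the complement
      (∀ (V : Type) (_ : Finite V) (P : NondetProgram n V) (T g : ℕ), T ≤ k * n →
        (g : ℝ) ≤ (n : ℝ) / 2 ^ (A * k ^ 3) → P.Computes T g (fun x => !hardFunction n x) →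
          (2 : ℝ) ^ ((n : ℝ) / 2 ^ (A * k ^ 3)) < Nat.card V) := by
  classical
  have hcard : ∀ {n : ℕ} {V Ω : Type} [Fintype Ω] (P : Ω → BranchingProgram n V)
      (x : Fin n → Bool) (t : ℕ) (a : Bool),
      prob P x t a = ((Finset.univ.filter fun ω => (P ω).answer x t = some a).card : ℝ) /
        (Fintype.card Ω : ℝ) := by
    intro n V Ω _ P x t a
    unfold prob
    rw [Nat.card_eq_fintype_card, Nat.card_eq_fintype_card, Fintype.card_subtype]
  obtain ⟨A, hA⟩ := Pool.Agent.L0h58.HZ.lowB
  -- the two notions of acceptance
  have hacc : ∀ {n : ℕ} {V : Type} (P : NondetProgram n V) (T g : ℕ) (x : Fin n → Bool),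
      (∃ γ : ℕ → Bool, P.out (P.run x γ T) = some true ∧
        {t : ℕ | t < T ∧ P.Chooses x γ t}.ncard ≤ g) ↔
      (Pool.Agent.L0h58.HN.NBP.mk P.start P.var P.next P.out).Accepts T g x := by
    intro n V P T g x
    have hrun : ∀ (γ : ℕ → Bool) (t : ℕ),
        (Pool.Agent.L0h58.HN.NBP.mk P.start P.var P.next P.out).run x γ t = P.run x γ t := by
      intro γ t
      induction t with
      | zero => rfl
      | succ t ih =>
        show (Pool.Agent.L0h58.HN.NBP.mk P.start P.var P.next P.out).step x _ _ = P.step x _ _
        rw [ih]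
        rfl
    have hset : ∀ γ : ℕ → Bool, {t : ℕ | t < T ∧ P.Chooses x γ t} =
        (((Finset.range T).filter fun t =>
          (Pool.Agent.L0h58.HN.NBP.mk P.start P.var P.next P.out).step x
            ((Pool.Agent.L0h58.HN.NBP.mk P.start P.var P.next P.out).run x γ t) false ≠
          (Pool.Agent.L0h58.HN.NBP.mk P.start P.var P.next P.out).step x
            ((Pool.Agent.L0h58.HN.NBP.mk P.start P.var P.next P.out).run x γ t) true :
              Finset ℕ) : Set ℕ) := by
      intro γ
      ext t
      rw [Finset.coe_filter, Set.mem_ofPred_eq, Set.mem_ofPred_eq, Finset.mem_range, hrun]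
      exact Iff.rfl
    unfold Pool.Agent.L0h58.HN.NBP.Accepts
    constructor
    · rintro ⟨γ, h1, h2⟩
      refine ⟨γ, by rw [hrun]; exact h1, ?_⟩
      rw [hset, Set.ncard_coe_finset] at h2
      exact h2
    · rintro ⟨γ, h1, h2⟩
      refine ⟨γ, by rw [← hrun]; exact h1, ?_⟩
      rw [hset, Set.ncard_coe_finset]
      exact h2
  refine ⟨fun n hn => ?_, A, fun k n hk hn => ⟨fun V Ω hV hΩ hne P h1 h2 => ?_,
    fun V hV P T g hT hg hP => ?_⟩⟩
  · obtain ⟨ρ, hρ, V, hV, start, next, acc, hcard, hdec⟩ := Pool.Agent.L0h58.HX.upper hn
    rw [hard_eq] at hdec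
    refine ⟨ρ, V, hV, ⟨start, next, acc⟩, hρ, hcard, fun x => ⟨fun hx => ?_, fun hx ω => ?_⟩⟩
    · have h1 := (hdec x).1 hx
      have h2 : ((2 ^ ρ : ℕ) : ℝ) ≤ ((2 * Nat.card {ω : Fin ρ → Bool //
          (OnePassProgram.mk start next acc).Accepts ω x} : ℕ) : ℝ) := by
        exact_mod_cast h1
      rw [le_div_iff₀ (by positivity)]
      push_cast at h2
      linarith
    · exact (hdec x).2 hx ω
  · have : Fintype Ω := Fintype.ofFinite Ω
    have hAk := (hA k n hk hn).1
    rw [hard_eq] at hAk
    refine hAk V Ω hV this hne (fun ω => (P ω).start) (fun ω => (P ω).var)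
      (fun ω => (P ω).next) (fun ω => (P ω).out) h1 fun x hx => ?_
    have h3 := h2 x hx
    have hpos : (0 : ℝ) < Fintype.card Ω := by exact_mod_cast Fintype.card_pos
    rw [hcard, le_div_iff₀ hpos] at h3
    exact h3
  · by_contra hcon
    apply (hA k n hk hn).2 T (Nat.card V) g hT (not_lt.1 hcon) hg
    rw [hard_eq]
    exact ⟨V, hV, ⟨P.start, P.var, P.next, P.out⟩, le_rfl, fun x => (hP x).trans (hacc P T g x)⟩

end Pool.Agent.Results.MP_b573ec_lc.RandomnessLinearTime
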