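import Pool.Agent.L0h33.TL.NPt

/-!
# `P`, `RP` and `NP` relative to tally oracles

* `P = RP` relative to every tally oracle if and only if `prRP = prP` (each promise problem of
  `RP` has a polynomial-time solution).
* `P = RP` relative to all tally oracles outside a meager set, if `P = RP`, and relative to none
  outside a meager set, if `P ≠ RP`.
* `P = RP` relative to almost every tally oracle, unconditionally.
* If `RP = NP` then `RP = NP` relative to every tally oracle; if `RP ≠ NP` then `RP ≠ NP` relative
  to all tally oracles outside a meager set, and relative to almost every tally oracle.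

Here tally oracles are given by sequences `T : ℕ → Bool`, in Cantor space with its topology and the
fair coin measure.

Ideas. A polynomial-time algorithm with the tally oracle `T` is one which gets an initial segment
of `T` of polynomial length as a table. If `prRP ≠ prP` then instances for which a given algorithm
errs can be coded into `T`, in such a way that the promise holds for all the coded instances. For
generic `T` the promise of a machine is decided by a finite part `σ` of `T`, and the machine has the
promise for all extensions of `σ`; then it defines a language of `RP`, whose instances are pairs of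
an input and a table. Random `T` provide the random bits. In the last part the self-reduction of a
search problem, with a good table for a nonnull set of oracles, gives a randomized algorithm.
-/

set_option autoImplicit false

namespace Pool.Agent.Results.MP_b573ec_lc.TallyOracles

open Pool.Agent.NPC Pool.Agent.L0h33.LD Pool.Agent.L0h33.TL MeasureTheory

theorem result :
    ((∀ T : ℕ → Bool, PeqRP (tal T)) ↔ PromiseEq) ∧
    ((∀ L, InRP L → InP L) → ∀ᶠ T in residual (ℕ → Bool), PeqRP (tal T)) ∧
    ((∃ L, InRP L ∧ ¬ InP L) → ∀ᶠ T in residual (ℕ → Bool), ¬ PeqRP (tal T)) ∧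
    (∀ᵐ T ∂fair, PeqRP (tal T)) ∧
    ((∀ L, InNPw L ↔ InRP L) → ∀ T : ℕ → Bool, RPeqNP (tal T)) ∧
    ((∃ L, InNPw L ∧ ¬ InRP L) →
      (∀ᶠ T in residual (ℕ → Bool), ¬ RPeqNP (tal T)) ∧ ∀ᵐ T ∂fair, ¬ RPeqNP (tal T)) := by
  refine ⟨⟨promise_of_peqRP, peqRP_of_promise⟩, generic_peqRP, ?_, ae_peqRP, rpeqnp_all, ?_⟩
  · rintro ⟨L, h1, h2⟩
    filter_upwards [generic_notP h2] with T h3 h4
    refine h3 ((h4 L).1 ?_)
    obtain ⟨p, V, hV, hL⟩ := h1
    exact rpo_of_inRP ⟨p, V, hV, hL⟩
  · rintro ⟨L, h1, h2⟩
    exact ⟨generic_rp_ne_np h1 h2, ae_rp_ne_np h1 h2⟩

end Pool.Agent.Results.MP_b573ec_lc.TallyOracles
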